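import Pool.Agent.Helper31.TMS.Goals

/-!
# Multitape Turing machines and descriptions of their tapes: the bounds
-/

namespace Pool.Agent.Helper31.TMS

open Pool.Agent.Helper65.LinSpace Pool.Agent.Helper78.Mpc Pool.Agent.Helper28.Ram
open Pool.Agent.Helper20.MH (MultiHead)
open Pool.Agent.Helper28.OHS (Box intW cellW)
open Pool.Agent.Helper81.Sus2 (Decomp)

variable {k : ℕ}

theorem inputMove_le (w : List Bool) (d : Dir) {p : ℕ} (h : p ≤ w.length + 1) :
    inputMove w d p ≤ w.length + 1 := by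
  cases d <;> simp only [inputMove]
  · omega
  · exact h
  · omega

theorem inp_le (M : TM k) (w : List Bool) (t : ℕ) : (M.run w t).inp ≤ w.length + 1 := by
  induction t with
  | zero => exact Nat.zero_le _
  | succ t ih =>
    show ((M.next w (M.run w t)).getD (M.run w t)).inp ≤ _
    unfold TM.next
    rcases M.step (M.run w t).state (inputSym w (M.run w t).inp)
      (fun i => (M.run w t).tape i ((M.run w t).head i)) with _ | a
    · exact ih
    · exact inputMove_le w _ ih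

theorem run_halt (M : TM k) {w : List Bool} {t : ℕ} (h : M.next w (M.run w t) = none) :
    M.run w (t + 1) = M.run w t := by
  show (M.next w (M.run w t)).getD (M.run w t) = _
  rw [h]
  rfl

theorem exists_bound {ι : Type} [Finite ι] (f : ι → ℕ) : ∃ c, ∀ i, f i ≤ c := by
  obtain ⟨c, hc⟩ := Set.Finite.bddAbove (Set.finite_range f)
  exact ⟨c, fun i => hc ⟨i, rfl⟩⟩

theorem bits_le {p n : ℕ} (h : p ≤ n + 1) : p.bits.length ≤ Nat.log 2 n + 2 := by
  refine length_bits ?_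
  have h1 : n < 2 ^ (Nat.log 2 n + 1) := Nat.lt_pow_succ_log_self (by norm_num) n
  rw [pow_succ]
  omega

theorem cellW_one (p : Fin 1 → ℤ) : cellW p = sd (intW (p 0)) := by
  unfold cellW
  simp [List.ofFn_succ]

theorem ineqs {C l N r s a κ : ℝ} (hl : 1 ≤ l) (hN : 1 ≤ N) (hr : 0 ≤ r) (hκ : 0 ≤ κ)
    (hs : s + l ≤ κ * l) (h1 : r * l ^ 5 ≤ C * N ^ 2) (h2 : l ^ 3 ≤ C * N)
    (h3 : a * l ^ 2 ≤ C * N) :
    (r + 1) * (s + l) * l ^ 4 ≤ (κ * (|C| + C ^ 2) + |C|) * N ^ 2 ∧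
      (s + l) * l ^ 2 ≤ (κ * (|C| + C ^ 2) + |C|) * N ∧
      a * l ^ 2 ≤ (κ * (|C| + C ^ 2) + |C|) * N := by
  have hl0 : 0 < l := by linarith
  have hN0 : 0 < N := by linarith
  have hC : C ≤ |C| := le_abs_self C
  have hC0 : 0 ≤ |C| := abs_nonneg C
  have hCN : C * N ≤ |C| * N := mul_le_mul_of_nonneg_right hC hN0.le
  have hCN2 : C * N ^ 2 ≤ |C| * N ^ 2 := mul_le_mul_of_nonneg_right hC (by positivity)
  have hk : 0 ≤ κ * (|C| + C ^ 2) := by positivity
  refine ⟨?_, ?_, ?_⟩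
  · have e1 : (r + 1) * (s + l) * l ^ 4 ≤ (r + 1) * (κ * l) * l ^ 4 := by
      refine mul_le_mul_of_nonneg_right (mul_le_mul_of_nonneg_left hs (by linarith))
        (by positivity)
    have e2 : (r + 1) * (κ * l) * l ^ 4 = κ * (r * l ^ 5 + l ^ 5) := by ring
    have e3 : l ^ 5 ≤ C ^ 2 * N ^ 2 := by
      have e4 : l ^ 5 ≤ l ^ 6 := pow_le_pow_right₀ hl (by norm_num)
      have e5 : l ^ 6 = (l ^ 3) ^ 2 := by ring
      have e6 : (l ^ 3) ^ 2 ≤ (C * N) ^ 2 := pow_le_pow_left₀ (by positivity) h2 2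
      rw [mul_pow] at e6
      linarith
    have e4 : κ * (r * l ^ 5 + l ^ 5) ≤ κ * (|C| * N ^ 2 + C ^ 2 * N ^ 2) :=
      mul_le_mul_of_nonneg_left (by linarith) hκ
    have e5 : 0 ≤ |C| * N ^ 2 := by positivity
    rw [e2] at e1
    calc _ ≤ κ * (|C| * N ^ 2 + C ^ 2 * N ^ 2) := e1.trans e4
      _ ≤ _ := by nlinarith
  · have e1 : (s + l) * l ^ 2 ≤ κ * l * l ^ 2 := mul_le_mul_of_nonneg_right hs (by positivity)
    have e2 : κ * l * l ^ 2 = κ * l ^ 3 := by ring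
    have e3 : κ * l ^ 3 ≤ κ * (|C| * N) := mul_le_mul_of_nonneg_left (by linarith) hκ
    have e4 : 0 ≤ κ * C ^ 2 * N := by positivity
    have e5 : 0 ≤ |C| * N := by positivity
    rw [e2] at e1
    calc _ ≤ κ * (|C| * N) := e1.trans e3
      _ ≤ _ := by nlinarith
  · have e4 : 0 ≤ κ * (|C| + C ^ 2) * N := by positivity
    calc _ ≤ |C| * N := h3.trans hCN
      _ ≤ _ := by nlinarith

theorem wth (hS : SIM_stmt) : WTH_stmt := by
  intro k M code A E c C hb hA
  have := M.finState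
  have := M.finSym
  obtain ⟨c₁, hc₁⟩ := exists_bound fun s : M.Sym => (code s).length
  obtain ⟨c₂, hc₂⟩ := exists_bound fun σ : M.State => (sd (idx M σ).bits).length
  refine ⟨((4 + 2 * k + c₂ + c₁ : ℕ) : ℝ) * (|C| + C ^ 2) + |C|, fun w h => ?_⟩
  obtain ⟨t, b, a, r, hacc, hbox, hsil, h1, h2, h3⟩ := h
  have hsim := fun u => hS M code A hb hA w [] u
  have hl : (1 : ℝ) ≤ (b : ℝ) + ((Nat.log 2 w.length : ℝ) + 1) := by
    have : (0 : ℝ) ≤ b := Nat.cast_nonneg _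
    have : (0 : ℝ) ≤ (Nat.log 2 w.length : ℝ) := Nat.cast_nonneg _
    linarith
  have hrun : ∀ u ≤ t + 1, ∃ u' ≤ t, M.run w u = M.run w u' := by
    intro u hu
    rcases Nat.lt_or_ge t u with h | h
    · have : u = t + 1 := by omega
      exact ⟨t, le_rfl, by rw [this, run_halt M hacc.1]⟩
    · exact ⟨u, h, rfl⟩
  obtain ⟨i1, i2, i3⟩ := ineqs (C := C) (l := (b : ℝ) + ((Nat.log 2 w.length : ℝ) + 1))
    (N := (w.length : ℝ) + 1) (r := r)
    (s := ((1 + 2 * k + c₂ + c₁ + (Nat.log 2 w.length + 2) : ℕ) : ℝ)) (a := a)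
    (κ := ((4 + 2 * k + c₂ + c₁ : ℕ) : ℝ)) hl
    (by have : (0 : ℝ) ≤ w.length := Nat.cast_nonneg _
        linarith) (Nat.cast_nonneg _) (Nat.cast_nonneg _)
    (by
      push_cast
      have e1 : (0 : ℝ) ≤ b := Nat.cast_nonneg _
      have e2 : (0 : ℝ) ≤ 1 + 2 * (k : ℝ) + c₂ + c₁ := by positivity
      have e3 : (1 + 2 * (k : ℝ) + c₂ + c₁) ≤ (1 + 2 * (k : ℝ) + c₂ + c₁) *
        ((b : ℝ) + ((Nat.log 2 w.length : ℝ) + 1)) := le_mul_of_one_le_right e2 hl
      nlinarith) h1 h2 h3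
  refine ⟨t + 1, 1 + 2 * k + c₂ + c₁ + (Nat.log 2 w.length + 2), b, a, r + 1, ?_, ?_, ?_, ?_,
    ?_, i2, i3⟩
  · obtain ⟨⟨f, d, e1, e2⟩, -⟩ := hsim (t + 1)
    show (A.conf w [] (t + 1)).q.head? = some true
    rw [e1, stW_head, e2.2 ⟨t, rfl, hacc⟩]
  · intro u _
    obtain ⟨⟨f, d, e1, -⟩, -, e3⟩ := hsim u
    have hi := inp_le M w u
    have hs := hc₂ (M.run w u).state
    have hb1 := bits_le hi
    have hb2 : ((M.run w u).inp - 1).bits.length ≤ Nat.log 2 w.length + 2 := bits_le (by omega)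
    refine ⟨?_, ?_, fun i z => ?_⟩
    · rw [e1]
      simp only [stW, List.length_cons, List.length_append, mvW_length]
      omega
    · rw [e1, hA.addr]
      omega
    · rw [e3]
      have := hc₁ ((M.run w u).tape i (z 0))
      omega
  · intro u hu i
    obtain ⟨-, e2, -⟩ := hsim u
    obtain ⟨u', hu', e⟩ := hrun u hu
    rw [e2, e]
    exact fun _ => hbox u' hu' i
  · intro u v huv hv hno
    have hno' : ∀ x, u < x → x < v → ¬Short M code E w b a (c * w.length) x := by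
      intro x hx hx' hs
      refine hno x hx hx' ?_
      obtain ⟨d, hd, hd'⟩ := hs
      refine ⟨d, hd, fun i p hp => ?_⟩
      obtain ⟨-, -, e3⟩ := hsim x
      rw [e3, MHS.nameW, cellW_one]
      exact hd' i (p 0) (hp 0).1 (hp 0).2
    rcases Nat.lt_or_ge t v with h | h
    · rcases Nat.lt_or_ge t u with h' | h'
      · omega
      · have := hsil u t h' le_rfl fun x hx hx' => hno' x hx (by omega)
        omega
    · have := hsil u v huv h hno'
      omega
  · have e1 : (((1 : ℕ) : ℝ) / (2 * ((1 : ℕ) : ℝ) - 1)) = 1 := by norm_num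
    rw [e1, Real.rpow_one]
    have e2 : (1 : ℝ) + 1 = ((2 : ℕ) : ℝ) := by norm_num
    rw [e2, Real.rpow_natCast]
    push_cast at i1 ⊢
    exact i1

end Pool.Agent.Helper31.TMS
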