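import Pool.Agent.Helper31.TMS.Enc

/-!
# Multitape Turing machines as machines with several heads
-/

namespace Pool.Agent.Helper31.TMS

open Pool.Agent.Helper65.LinSpace Pool.Agent.Helper78.Mpc Pool.Agent.Helper28.Ram
open Pool.Agent.Helper65.OH (letW mv)
open Pool.Agent.Helper20.MH (MultiHead Conf)

instance : Finite Dir := by
  refine Finite.of_injective (fun d : Dir => (match d with
    | .left => 0
    | .stay => 1
    | .right => 2 : Fin 3)) ?_
  intro a b h
  cases a <;> cases b <;> simp_all

variable {k : ℕ} (M : TM k)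

/-- The number of a state. -/
noncomputable def idx (σ : M.State) : ℕ :=
  haveI := M.finState
  (Finite.equivFin M.State σ : ℕ)

theorem idx_inj {σ σ' : M.State} (h : idx M σ = idx M σ') : σ = σ' := by
  haveI := M.finState
  exact (Finite.equivFin M.State).injective (Fin.ext h)

/-- What the machine sees in a step: the flag and the moves of the state word, the state, the
letters of the two input words, and the symbols. -/
abbrev Tup : Type :=
  Bool × (Fin k → Dir) × M.State × Option Bool × Option Bool × (Fin k → M.Sym)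

theorem finite_tup : Finite (Tup M) := by
  have := M.finState
  have := M.finSym
  infer_instance

/-- The new position of the input head. -/
def pos (a : Option Bool) (d : Dir) (p : ℕ) : ℕ :=
  match d with
  | .left => p - 1
  | .stay => p
  | .right => if p = 0 then 1 else if a = none then p else p + 1

open Classical in
/-- The new state word if `a` is the letter under the input head. -/
noncomputable def res (σ : M.State) (a : Option Bool) (s : Fin k → M.Sym) (p : ℕ) : List Bool :=
  match M.step σ a s with
  | none => stW (k := k) (decide (σ ∈ M.accept)) (fun _ => Dir.stay) (idx M σ) p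
  | some x => stW false (fun j => (x.2.2 j).2) (idx M x.1) (pos a x.2.1 p)

/-- The written symbol. -/
def sym (σ : M.State) (a : Option Bool) (s : Fin k → M.Sym) (j : Fin k) : M.Sym :=
  match M.step σ a s with
  | none => s j
  | some x => (x.2.2 j).1

variable (code : M.Sym → List Bool)

/-- The word which `next` gets. -/
noncomputable def enc (t : Tup M) (p : ℕ) : List Bool :=
  sd (stW t.1 t.2.1 (idx M t.2.2.1) p) ++ (letW t.2.2.2.1 ++ (letW t.2.2.2.2.1 ++
    (List.finRange k).flatMap fun i => sd (code (t.2.2.2.2.2 i))))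

/-- The new state word. -/
noncomputable def out (t : Tup M) (p : ℕ) : List Bool :=
  res M t.2.2.1 (if p = 0 then none else t.2.2.2.1) t.2.2.2.2.2 p

/-- The written word. -/
noncomputable def outW (j : Fin k) (t : Tup M) (p : ℕ) : List Bool :=
  code (sym M t.2.2.1 (if p = 0 then none else t.2.2.2.1) t.2.2.2.2.2 j)

variable {code}

theorem enc_inj (hc : Function.Injective code) {t t' : Tup M} {p p' : ℕ}
    (h : enc M code t p = enc M code t' p') : t = t' ∧ p = p' := by
  obtain ⟨f, d, σ, a, b, s⟩ := t
  obtain ⟨f', d', σ', a', b', s'⟩ := t'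
  obtain ⟨h1, h2⟩ := sd_inj h
  obtain ⟨h3, h4, h5, h6⟩ := stW_inj h1
  obtain ⟨h7, h8⟩ := letW_inj h2
  obtain ⟨h9, h10⟩ := letW_inj h8
  have h11 := (flatMap_inj (v := fun i => code (s i)) (v' := fun i => code (s' i))
    (l := List.finRange k) (r := []) (r' := []) (by simpa using h10)).1
  have h12 : s = s' := by
    funext i
    exact hc (h11 i (List.mem_finRange i))
  have h13 : σ = σ' := idx_inj M h5
  subst h12 h13
  simp only at h3 h4 h7 h9
  rw [h3, h4, h7, h9]
  exact ⟨rfl, h6⟩

theorem le_enc (t : Tup M) (p : ℕ) : p ≤ num (enc M code t p) :=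
  (le_num_stW _ _ _ _).trans ((num_le_sd _).trans (num_mono_left _ _))

/-! ### Linear space -/

theorem ls_stW {f : ℕ → ℕ} (hf : LS f) (fl : Bool) (d : Fin k → Dir) (σ : ℕ) :
    LS (fun p => num (stW fl d σ (f p))) := by
  have e : (fun p => num (stW fl d σ (f p))) =
      fun p => catN (num (fl :: (mvW d ++ sd σ.bits))) (bitsN (f p)) := by
    funext p
    rw [bitsN_eq, catN_num]
    simp [stW]
  rw [e]
  fun_prop

theorem ls_enc (t : Tup M) : LS (fun p => num (enc M code t p)) := by
  have e : (fun p => num (enc M code t p)) = fun p =>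
      catN (sdN (num (stW t.1 t.2.1 (idx M t.2.2.1) p)))
        (num (letW t.2.2.2.1 ++ (letW t.2.2.2.2.1 ++
          (List.finRange k).flatMap fun i => sd (code (t.2.2.2.2.2 i))))) := by
    funext p
    rw [sdN_num, catN_num]
    rfl
  rw [e]
  have := ls_stW (f := fun p => p) LS.id t.1 t.2.1 (idx M t.2.2.1)
  fun_prop

theorem ls_pos (a : Option Bool) (d : Dir) : LS (pos a d) := by
  cases d with
  | left =>
    show LS fun p => p - 1
    fun_prop
  | stay => exact LS.id
  | right =>
    by_cases h : a = none
    · have e : pos a .right = fun p => ifz p 1 p := by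
        funext p
        simp [pos, ifz, h]
      rw [e]
      fun_prop
    · have e : pos a .right = fun p => ifz p 1 (p + 1) := by
        funext p
        simp [pos, ifz, h]
      rw [e]
      fun_prop

theorem ls_res (σ : M.State) (a : Option Bool) (s : Fin k → M.Sym) :
    LS (fun p => num (res M σ a s p)) := by
  unfold res
  cases M.step σ a s with
  | none => exact ls_stW LS.id _ _ _
  | some x => exact ls_stW (ls_pos _ _) _ _ _

theorem ls_out (t : Tup M) : LS (fun p => num (out M t p)) := by
  have e : (fun p => num (out M t p)) = fun p =>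
      ifz p (num (res M t.2.2.1 none t.2.2.2.2.2 0))
        (num (res M t.2.2.1 t.2.2.2.1 t.2.2.2.2.2 p)) := by
    funext p
    unfold out ifz
    split_ifs with h
    · rw [h]
    · rfl
  rw [e]
  have := ls_res M t.2.2.1 t.2.2.2.1 t.2.2.2.2.2
  fun_prop

theorem ls_outW (j : Fin k) (t : Tup M) : LS (fun p => num (outW M code j t p)) := by
  have e : (fun p => num (outW M code j t p)) = fun p =>
      ifz p (num (code (sym M t.2.2.1 none t.2.2.2.2.2 j)))
        (num (code (sym M t.2.2.1 t.2.2.2.1 t.2.2.2.2.2 j))) := by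
    funext p
    unfold outW ifz
    split_ifs <;> rfl
  rw [e]
  fun_prop

/-! ### The machine -/

/-- The machine `A` simulates `M`. -/
structure Sm (code : M.Sym → List Bool) (A : MultiHead 1 k) : Prop where
  start : A.start = stW (k := k) false (fun _ => Dir.stay) (idx M M.start) 0
  tape : ∀ j, A.tape j = j
  addr : ∀ (f : Bool) (d : Fin k → Dir) (σ : M.State) (p : ℕ),
    A.addr (stW f d (idx M σ) p) = (p - 1).bits
  next : ∀ t p, A.next (enc M code t p) = out M t p
  write : ∀ (j : Fin k) t p, A.write (sd (j : ℕ).bits ++ enc M code t p) = outW M code j t p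

theorem exists_mach (hc : Function.Injective code) : ∃ A : MultiHead 1 k, Sm M code A := by
  have := M.finState
  have := M.finSym
  obtain ⟨f1, l1, h1⟩ := exists_linComp (τ := Bool × (Fin k → Dir) × M.State)
    (fun t p => stW t.1 t.2.1 (idx M t.2.2) p) (fun _ p => (p - 1).bits)
    (fun t p => num (stW t.1 t.2.1 (idx M t.2.2) p)) (fun _ p => bitsN (p - 1))
    (fun t => ls_stW LS.id _ _ _) (fun t => by fun_prop) (fun _ _ => rfl)
    (fun t p => bitsN_eq _) (fun t t' p p' h => by
      obtain ⟨h3, h4, h5, h6⟩ := stW_inj h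
      obtain ⟨f, d, σ⟩ := t
      obtain ⟨f', d', σ'⟩ := t'
      have h13 : σ = σ' := idx_inj M h5
      subst h13
      simp only at h3 h4
      rw [h3, h4]
      exact ⟨rfl, h6⟩) (fun t p => le_num_stW _ _ _ _)
  obtain ⟨f2, l2, h2⟩ := exists_linComp (enc M code) (out M) (fun t p => num (enc M code t p))
    (fun t p => num (out M t p)) (ls_enc M) (ls_out M) (fun _ _ => rfl) (fun _ _ => rfl)
    (fun t t' p p' h => enc_inj M hc h) (fun t p => le_enc M t p)
  obtain ⟨f3, l3, h3⟩ := exists_linComp (τ := Fin k × Tup M)
    (fun t p => sd (t.1 : ℕ).bits ++ enc M code t.2 p) (fun t p => outW M code t.1 t.2 p)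
    (fun t p => catN (num (sd (t.1 : ℕ).bits)) (num (enc M code t.2 p)))
    (fun t p => num (outW M code t.1 t.2 p)) (fun t => by
      have := ls_enc M (code := code) t.2
      fun_prop) (fun t => ls_outW M t.1 t.2) (fun _ _ => catN_num _ _) (fun _ _ => rfl)
    (fun t t' p p' h => by
      obtain ⟨g1, g2⟩ := sd_inj h
      obtain ⟨g3, g4⟩ := enc_inj M hc g2
      exact ⟨Prod.ext (Fin.ext (bits_inj g1)) g3, g4⟩)
    (fun t p => (le_enc M t.2 p).trans (num_le_append _ _))
  exact ⟨⟨stW false (fun _ => Dir.stay) (idx M M.start) 0, fun j => j, f1, f2, f3, l1, l2, l3⟩,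
    ⟨rfl, fun _ => rfl, fun f d σ p => h1 (f, d, σ) p, h2, fun j t p => h3 (j, t) p⟩⟩

end Pool.Agent.Helper31.TMS
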