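import Pool.Agent.Helper31.MHS.Defs

/-!
# Multitape Turing machines and descriptions of their tapes: definitions
-/

namespace Pool.Agent.Helper31.TMS

open Pool.Agent.Helper65.LinSpace Pool.Agent.Helper78.Mpc
open Pool.Agent.Helper28.OHS (intW)
open Pool.Agent.Helper81.Sus2 (Decomp)

variable {k : ℕ}

/-- The machine halts at the time `t` and accepts. -/
def AcceptsAt (M : TM k) (w : List Bool) (t : ℕ) : Prop :=
  M.next w (M.run w t) = none ∧ (M.run w t).state ∈ M.accept

/-- The work tapes at the time `t` (the symbols of the cells `-2 ^ b, …, 2 ^ b - 1` of all tapes) have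
a description of at most `z` bits for the decompressor `E`, which has random access to the input
word `w` and the description `d`, and answers with the code of the symbol. -/
def Short (M : TM k) (code : M.Sym → List Bool) (E : Decomp) (w : List Bool) (b a z t : ℕ) : Prop :=
  ∃ d : List Bool, d.length ≤ z ∧ ∀ (i : Fin k) (p : ℤ), -2 ^ b ≤ p → p < 2 ^ b →
    E.Says w [] a d (sd (i : ℕ).bits ++ sd (intW p)) (code ((M.run w t).tape i p))

/-- The machine halts and accepts at some time `t`, with the following bounds, where `n` is the length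
of the input word: the work heads stay in the cells `-2 ^ b, …, 2 ^ b - 1`; if the tapes have no
description of at most `c n` bits at the times strictly between `u` and `v ≤ t`, then `v - u` is at
most `r`. For `l = b + ⌊log₂ n⌋ + 1`: `r l ^ 5 ≤ C (n + 1) ^ 2`, `l ^ 3 ≤ C (n + 1)` and
`a l ^ 2 ≤ C (n + 1)`. -/
def Within (M : TM k) (code : M.Sym → List Bool) (E : Decomp) (c : ℕ) (C : ℝ) (w : List Bool) :
    Prop :=
  ∃ t b a r : ℕ, AcceptsAt M w t ∧
    (∀ u ≤ t, ∀ i, -2 ^ b ≤ (M.run w u).head i ∧ (M.run w u).head i < 2 ^ b) ∧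
    (∀ u v : ℕ, u ≤ v → v ≤ t →
      (∀ x, u < x → x < v → ¬Short M code E w b a (c * w.length) x) → v ≤ u + r) ∧
    (r : ℝ) * ((b : ℝ) + ((Nat.log 2 w.length : ℝ) + 1)) ^ 5 ≤ C * ((w.length : ℝ) + 1) ^ 2 ∧
    ((b : ℝ) + ((Nat.log 2 w.length : ℝ) + 1)) ^ 3 ≤ C * ((w.length : ℝ) + 1) ∧
    (a : ℝ) * ((b : ℝ) + ((Nat.log 2 w.length : ℝ) + 1)) ^ 2 ≤ C * ((w.length : ℝ) + 1)

end Pool.Agent.Helper31.TMS
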