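import Pool.Agent.Helper31.TMS.Goals
import Pool.Agent.Helper31.MHS.Two

/-!
# Multitape Turing machines and descriptions of their tapes: the theorems
-/

namespace Pool.Agent.Helper31.TMS

open Pool.Agent.Helper65.LinSpace Pool.Agent.Helper28.Ram
open Pool.Agent.Helper20.MH (MultiHead)
open Pool.Agent.Helper81.Sus2 (Decomp)

theorem accepts_iff {k : ℕ} {M : TM k} {code : M.Sym → List Bool} {A : MultiHead 1 k}
    (hS : SIM_stmt) (hb : code M.blank = []) (hA : Sm M code A) (w y : List Bool) :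
    (∃ t, A.AcceptsAt w y t) ↔ ∃ t, AcceptsAt M w t := by
  constructor
  · rintro ⟨t, ht⟩
    obtain ⟨⟨f, d, h1, h2⟩, -⟩ := hS M code A hb hA w y t
    have h3 : f = true := by
      have h4 : (A.conf w y t).q.head? = some true := ht
      rw [h1, stW_head] at h4
      exact Option.some.inj h4
    obtain ⟨u, -, h5⟩ := h2.1 h3
    exact ⟨u, h5⟩
  · rintro ⟨t, ht⟩
    obtain ⟨⟨f, d, h1, h2⟩, -⟩ := hS M code A hb hA w y (t + 1)
    refine ⟨t + 1, ?_⟩
    show (A.conf w y (t + 1)).q.head? = some true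
    rw [h1, stW_head, h2.2 ⟨t, rfl, ht⟩]

/-- Hardness for machines with several heads gives hardness for Turing machines. -/
theorem tms_of {c : ℕ} {L : Set (List Bool)} (hS : SIM_stmt) (hW : WTH_stmt)
    (h : ∀ (D K : ℕ), 0 < D → 0 < K → ∀ (A : MultiHead D K) (E : Decomp) (C : ℝ), ∃ c' : ℝ,
        ∀ (n : ℕ) (α : List Bool), ∀ M, M = L ∨ M = Lᶜ →
        ({w : List Bool | w.length = n ∧
          ((∃ t, A.AcceptsAt w α t) → w ∈ M) ∧ (w ∈ M → MHS.Within A E c C w α)}.ncard : ℝ) ≤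
          2 ^ n / 2 + c' * ((α.length : ℝ) + 1) * 2 ^ (((n : ℝ) + α.length / c) / 2))
    {k : ℕ} (hk : 0 < k) (M : TM k) (code : M.Sym → List Bool) (hc : Function.Injective code)
    (hb : code M.blank = []) (E : Decomp) (C : ℝ) :
    ∃ c' : ℝ, ∀ (n : ℕ), ∀ N, N = L ∨ N = Lᶜ →
      ({w : List Bool | w.length = n ∧ ((∃ t, AcceptsAt M w t) → w ∈ N) ∧
        (w ∈ N → Within M code E c C w)}.ncard : ℝ) ≤ 2 ^ n / 2 + c' * 2 ^ ((n : ℝ) / 2) := by
  obtain ⟨A, hA⟩ := exists_mach M hc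
  obtain ⟨C', hC'⟩ := hW M code A E c C hb hA
  obtain ⟨c', h1⟩ := h 1 k Nat.one_pos hk A E C'
  refine ⟨c', fun n N hN => ?_⟩
  have h2 := h1 n [] N hN
  simp only [List.length_nil, Nat.cast_zero, zero_add, mul_one, zero_div, add_zero] at h2
  refine le_trans ?_ h2
  have hfin : {w : List Bool | w.length = n}.Finite := List.finite_length_eq Bool n
  refine Nat.cast_le.2 (Set.ncard_le_ncard (fun w hw => ?_) (hfin.subset fun w hw => hw.1))
  obtain ⟨h3, h4, h5⟩ := hw
  exact ⟨h3, fun h6 => h4 ((accepts_iff hS hb hA w []).1 h6), fun h6 => hC' w (h5 h6)⟩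

/-- Languages accepted by sustained Turing machines are in linear space. -/
theorem tms_lin (hS : SIM_stmt) (hW : WTH_stmt) (c : ℕ) {k : ℕ} (hk : 0 < k) (M : TM k)
    (code : M.Sym → List Bool) (hc : Function.Injective code) (hb : code M.blank = [])
    (E : Decomp) (C : ℝ) (L : Set (List Bool)) (h1 : ∀ w, (∃ t, AcceptsAt M w t) → w ∈ L)
    (h2 : ∀ w ∈ L, Within M code E c C w) : DLINSPACE L := by
  obtain ⟨A, hA⟩ := exists_mach M hc
  obtain ⟨C', hC'⟩ := hW M code A E c C hb hA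
  refine Pool.Agent.Helper78.Gen2.alt_lin (MHS.accW Pool.Agent.Helper65.RT.theSim c) MHS.NBW
    (MHS.theLSA.1 Pool.Agent.Helper65.RT.theSim c) MHS.theLSA.2 0 L
    (fun w y => ∃ t, A.AcceptsAt w y t) (MHS.Within A E c C')
    (MHS.theEXG Pool.Agent.Helper65.RT.theSim c Nat.one_pos hk A E C') (fun w h => ?_)
    (fun w hw => ?_)
  · rw [zero_mul] at h
    exact h1 w ((accepts_iff hS hb hA w []).1 h)
  · rw [zero_mul]
    exact hC' w (h2 w hw)

end Pool.Agent.Helper31.TMS
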