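import Pool.Agent.Helper31.TMS.Sel
import Pool.Agent.Helper20.MH.Defs

/-!
# The states of multitape machines as words
-/

namespace Pool.Agent.Helper31.TMS

open Pool.Agent.Helper65.LinSpace Pool.Agent.Helper78.Mpc Pool.Agent.Helper28.Ram
open Pool.Agent.Helper65.OH (letW mv)

/-! ### Injectivity -/

theorem sd_inj : ∀ {a a' b b' : List Bool}, sd a ++ b = sd a' ++ b' → a = a' ∧ b = b'
  | [], [], b, b', h => by
    simp only [sd, List.cons_append, List.nil_append, List.cons.injEq, true_and] at h
    exact ⟨rfl, h⟩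
  | [], x :: a', b, b', h => by
    simp [sd] at h
  | x :: a, [], b, b', h => by
    simp [sd] at h
  | x :: a, x' :: a', b, b', h => by
    simp only [sd, List.cons_append, List.cons.injEq, true_and] at h
    obtain ⟨h1, h2⟩ := sd_inj h.2
    exact ⟨by rw [h.1, h1], h2⟩

theorem bits_inj {i j : ℕ} (h : i.bits = j.bits) : i = j := by
  have h1 : Nat.digits 2 i = Nat.digits 2 j := by
    rw [Nat.digits_two_eq_bits, Nat.digits_two_eq_bits, h]
  exact Nat.digits_inj_iff.1 h1

theorem bval_bits (i : ℕ) : bval i.bits = i := by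
  induction i using Nat.binaryRec' with
  | zero => simp [bval]
  | bit b n h ih =>
    rw [Nat.bits_append_bit _ _ h]
    show b.toNat + 2 * bval n.bits = _
    rw [ih, Nat.bit_val]
    ring

theorem flatMap_inj {ι : Type} {v v' : ι → List Bool} : ∀ {l : List ι} {r r' : List Bool},
    (l.flatMap fun i => sd (v i)) ++ r = (l.flatMap fun i => sd (v' i)) ++ r' →
    (∀ i ∈ l, v i = v' i) ∧ r = r'
  | [], r, r', h => ⟨by simp, by simpa using h⟩
  | i :: l, r, r', h => by
    rw [List.flatMap_cons, List.flatMap_cons, List.append_assoc, List.append_assoc] at h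
    obtain ⟨h1, h2⟩ := sd_inj h
    obtain ⟨h3, h4⟩ := flatMap_inj h2
    refine ⟨fun j hj => ?_, h4⟩
    rcases List.mem_cons.1 hj with rfl | hj
    · exact h1
    · exact h3 j hj

theorem letW_inj {a a' : Option Bool} {r r' : List Bool} (h : letW a ++ r = letW a' ++ r') :
    a = a' ∧ r = r' := by
  rcases a with _ | a <;> rcases a' with _ | a'
  · simpa [letW] using h
  · cases a' <;> simp [letW] at h
  · cases a <;> simp [letW] at h
  · cases a <;> cases a' <;> simp_all [letW]

/-! ### Moves -/

/-- The two letters for a move. -/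
def dirW : Dir → List Bool
  | .left => [false, true]
  | .stay => [false, false]
  | .right => [true, false]

theorem dirW_length (d : Dir) : (dirW d).length = 2 := by cases d <;> rfl

/-- The letters for the moves. -/
def mvW {k : ℕ} (d : Fin k → Dir) : List Bool := (List.finRange k).flatMap fun j => dirW (d j)

theorem mvW_length {k : ℕ} (d : Fin k → Dir) : (mvW d).length = 2 * k := by
  unfold mvW
  rw [List.length_flatMap]
  simp [dirW_length, mul_comm]

theorem flatMap_get {ι : Type} (f : ι → List Bool) (hf : ∀ i, (f i).length = 2) :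
    ∀ (l : List ι) (j e : ℕ) (i : ι), l[j]? = some i → e < 2 → ∀ r : List Bool,
      ((l.flatMap f) ++ r)[2 * j + e]? = (f i)[e]?
  | [], j, e, i, h, _, _ => by simp at h
  | a :: l, 0, e, i, h, he, r => by
    simp only [List.getElem?_cons_zero, Option.some.injEq] at h
    subst h
    rw [List.flatMap_cons, List.append_assoc, List.getElem?_append_left (by rw [hf]; omega)]
    simp
  | a :: l, j + 1, e, i, h, he, r => by
    rw [List.getElem?_cons_succ] at h
    rw [List.flatMap_cons, List.append_assoc, List.getElem?_append_right (by rw [hf]; omega), hf,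
      show 2 * (j + 1) + e - 2 = 2 * j + e by omega]
    exact flatMap_get f hf l j e i h he r

theorem mvW_get {k : ℕ} (d : Fin k → Dir) (j : Fin k) {e : ℕ} (he : e < 2) (r : List Bool) :
    (mvW d ++ r)[2 * (j : ℕ) + e]? = (dirW (d j))[e]? := by
  refine flatMap_get _ (fun j => dirW_length _) _ _ _ _ ?_ he r
  rw [List.getElem?_eq_getElem (by simp)]
  simp

/-- The state word: a flag, the moves, the number of the state and the position of the input
head. -/
def stW {k : ℕ} (f : Bool) (d : Fin k → Dir) (σ p : ℕ) : List Bool :=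
  f :: (mvW d ++ (sd σ.bits ++ p.bits))

theorem mv_stW {k : ℕ} (f : Bool) (d : Fin k → Dir) (σ p : ℕ) (j : Fin k) :
    mv (stW f d σ p) j = (d j).toInt := by
  have h1 : (stW f d σ p)[2 * (j : ℕ) + 1]? = (dirW (d j))[0]? := by
    show (f :: _)[2 * (j : ℕ) + 1]? = _
    rw [List.getElem?_cons_succ]
    exact mvW_get d j (e := 0) (by norm_num) _
  have h2 : (stW f d σ p)[2 * (j : ℕ) + 2]? = (dirW (d j))[1]? := by
    show (f :: _)[2 * (j : ℕ) + 1 + 1]? = _
    rw [List.getElem?_cons_succ]
    exact mvW_get d j (e := 1) (by norm_num) _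
  unfold mv
  rw [h1, h2]
  cases d j <;> simp [dirW, Dir.toInt]

theorem stW_head {k : ℕ} (f : Bool) (d : Fin k → Dir) (σ p : ℕ) :
    (stW f d σ p).head? = some f := rfl

theorem stW_inj {k : ℕ} {f f' : Bool} {d d' : Fin k → Dir} {σ σ' p p' : ℕ}
    (h : stW f d σ p = stW f' d' σ' p') : f = f' ∧ d = d' ∧ σ = σ' ∧ p = p' := by
  have hd : d = d' := by
    funext j
    have h1 : mv (stW f d σ p) j = mv (stW f' d' σ' p') j := by rw [h]
    rw [mv_stW, mv_stW] at h1
    revert h1
    cases d j <;> cases d' j <;> simp [Dir.toInt]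
  subst hd
  unfold stW at h
  simp only [List.cons.injEq, List.append_cancel_left_eq] at h
  obtain ⟨h1, h2⟩ := h
  obtain ⟨h3, h4⟩ := sd_inj h2
  exact ⟨h1, rfl, bits_inj h3, bits_inj h4⟩

/-! ### Numbers -/

theorem lt_num_bits (p : ℕ) : p < num p.bits := by
  rw [← bitsN_eq]
  unfold bitsN ifz
  split_ifs with h
  · omega
  · have : 0 < 2 ^ Nat.log 2 p := by positivity
    omega

theorem num_le_append (u v : List Bool) : num v ≤ num (u ++ v) := by
  induction u with
  | nil => exact le_rfl
  | cons b u ih =>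
    show _ ≤ b.toNat + 2 * num (u ++ v)
    omega

theorem num_mono_left (u v : List Bool) : num u ≤ num (u ++ v) := by
  induction u with
  | nil =>
    show 1 ≤ num ([] ++ v)
    exact num_pos _
  | cons b u ih =>
    show b.toNat + 2 * num u ≤ b.toNat + 2 * num (u ++ v)
    omega

theorem num_le_sd (u : List Bool) : num u ≤ num (sd u) := by
  induction u with
  | nil =>
    show 1 ≤ num [false]
    exact num_pos _
  | cons b u ih =>
    show b.toNat + 2 * num u ≤ true.toNat + 2 * (b.toNat + 2 * num (sd u))
    have : b.toNat ≤ 1 := by cases b <;> simp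
    simp only [Bool.toNat_true]
    omega

theorem le_num_stW {k : ℕ} (f : Bool) (d : Fin k → Dir) (σ p : ℕ) : p ≤ num (stW f d σ p) := by
  have h1 := lt_num_bits p
  have h2 : num p.bits ≤ num ((f :: (mvW d ++ sd σ.bits)) ++ p.bits) := num_le_append _ _
  have h3 : (f :: (mvW d ++ sd σ.bits)) ++ p.bits = stW f d σ p := by
    simp [stW]
  rw [h3] at h2
  omega

end Pool.Agent.Helper31.TMS
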