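import Pool.Agent.Helper31.TMS.Mach
import Pool.Agent.Helper31.TMS.Defs

/-!
# Multitape Turing machines and descriptions of their tapes: the statements of the parts
-/

namespace Pool.Agent.Helper31.TMS

open Pool.Agent.Helper65.LinSpace Pool.Agent.Helper78.Mpc Pool.Agent.Helper28.Ram
open Pool.Agent.Helper20.MH (MultiHead)
open Pool.Agent.Helper81.Sus2 (Decomp)

variable {k : ℕ}

/-- SIM. The machine `A` simulates `M` step by step. Induction on `t`. If `M` halts in the
configuration `run w t` then `res` is in its first case and `A` keeps positions and contents. -/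
def SIM_stmt : Prop := ∀ {k : ℕ} (M : TM k) (code : M.Sym → List Bool) (A : MultiHead 1 k),
    code M.blank = [] → Sm M code A → ∀ (w y : List Bool) (t : ℕ),
    (∃ f d, (A.conf w y t).q = stW (k := k) f d (idx M (M.run w t).state) (M.run w t).inp ∧
      (f = true ↔ ∃ u, t = u + 1 ∧ AcceptsAt M w u)) ∧
    (∀ j, (A.conf w y t).h j = fun _ => (M.run w t).head j) ∧
    (∀ j z, (A.conf w y t).M j z = code ((M.run w t).tape j (z 0)))

/-- WTH (may assume SIM). `A` accepts at the time `t + 1`. States have at most `s` bits with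
`s ≤ c₀ + ⌊log₂ (n + 1)⌋`, `r' = r + 1`; `(s + l) ≤ (c₀ + 3) l`, `r' l ^ 5 ≤ C (n + 1) ^ 2 + (l ^ 3) ^ 2`;
`D / (2 D - 1) = 1` for `D = 1`. The name of a cell `p : Fin 1 → ℤ` is `sd (i).bits ++ sd (intW (p 0))`. -/
def WTH_stmt : Prop := ∀ {k : ℕ} (M : TM k) (code : M.Sym → List Bool) (A : MultiHead 1 k)
    (E : Decomp) (c : ℕ) (C : ℝ), code M.blank = [] → Sm M code A →
    ∃ C' : ℝ, ∀ w : List Bool, Within M code E c C w → MHS.Within A E c C' w []

end Pool.Agent.Helper31.TMS
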