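import Pool.Agent.Helper78.Mpc.Words
import Pool.Agent.Helper65.LinSpace.Bridge
import Pool.Agent.Helper78.Avg.Base

/-!
# Functions on words which are computed in linear space on numbers
-/

namespace Pool.Agent.Helper31.TMS

open Pool.Agent.Helper65.LinSpace Pool.Agent.Helper78.Mpc Finset

theorem letN_word (w : List Bool) (i : ℕ) (b : Bool) :
    letN (num w) i = 1 + b.toNat ↔ w[i]? = some b := by
  rw [letN_num]
  rcases w[i]? with _ | a
  · cases b <;> simp [codeO]
  · cases a <;> cases b <;> simp [codeO]

/-- The test for `u = 1^i 0 w` with `(f w)[i]? = some b`. -/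
def tst (F : ℕ → ℕ) (b : Bool) (x i : ℕ) : ℕ :=
  eq01 x (queryN (2 * x) i (x / capPow 2 (i + 1) (2 * x))) *
    (lt01 0 (x / capPow 2 (i + 1) (2 * x)) *
      eq01 (letN (F (x / capPow 2 (i + 1) (2 * x))) i) (1 + b.toNat))

/-- A function on words which is computed in linear space on numbers is computable in linear
space. -/
theorem linComp_of_ls {f : List Bool → List Bool} {F : ℕ → ℕ} (hF : LS F)
    (h : ∀ w, F (num w) = num (f w)) : LinComp f := by
  intro b
  refine LS.dlinspace (F := fun x => ∑ i ∈ range (Nat.log 2 x + 1), tst F b x i) ?_ _ ?_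
  · refine LS.sum_le (N := fun x : ℕ => Nat.log 2 x + 1) (B := fun _ => 1)
      (f := fun x i => tst F b x i) ?_ (by fun_prop) (LS.const 1) fun x i _ => ?_
    · have hq : LS (fun z : ℕ × ℕ => z.1 / capPow 2 (z.2 + 1) (2 * z.1)) := by fun_prop
      have hF' : LS (fun z : ℕ × ℕ => F (z.1 / capPow 2 (z.2 + 1) (2 * z.1))) :=
        LS.comp (g := F) hF hq
      unfold tst
      fun_prop
    · unfold tst eq01 lt01
      split_ifs <;> norm_num
  · intro u
    constructor
    · rintro ⟨i, w, rfl, hi⟩ hsum
      rw [sum_eq_zero_iff] at hsum
      have hlog := log_num (List.replicate i true ++ false :: w)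
      have hlen : (List.replicate i true ++ false :: w).length = i + (w.length + 1) := by simp
      have hi' := hsum i (mem_range.2 (by rw [hlog, hlen]; omega))
      set x := num (List.replicate i true ++ false :: w) with hx
      have hB : 2 ^ (i + 1) ≤ 2 * x := by
        have h1 : 2 ^ Nat.log 2 x ≤ x := Nat.pow_log_le_self 2 (num_pos _).ne'
        have h2 : 2 ^ (i + 1) ≤ 2 ^ Nat.log 2 x :=
          Nat.pow_le_pow_right (by norm_num) (by rw [hlog, hlen]; omega)
        omega
      have hcap : capPow 2 (i + 1) (2 * x) = 2 ^ (i + 1) := by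
        rw [capPow, min_eq_left (by omega)]
      have hq : queryN (2 * x) i (num w) = x := queryN_num hB w
      have hdiv : x / 2 ^ (i + 1) = num w := by
        have e : x = 2 ^ (i + 1) * num w + (capPow 2 i (2 * x) - 1) := by
          conv_lhs => rw [← hq]
          unfold queryN
          rw [hcap]
        have h3 : capPow 2 i (2 * x) - 1 < 2 ^ (i + 1) := by
          have h4 : capPow 2 i (2 * x) ≤ 2 ^ i := min_le_left _ _
          have h5 : 2 ^ i < 2 ^ (i + 1) := Nat.pow_lt_pow_right (by norm_num) (by omega)
          omega
        conv_lhs => rw [e]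
        rw [Nat.mul_add_div (by positivity), Nat.div_eq_of_lt h3, add_zero]
      have hx1 : tst F b x i = 1 := by
        unfold tst
        rw [hcap, hdiv, hq, h, (letN_word _ _ _).2 hi]
        have := num_pos w
        simp [eq01, lt01, this]
      omega
    · intro hsum
      obtain ⟨i, _, hi⟩ := exists_ne_zero_of_sum_ne_zero hsum
      set x := num u with hx
      unfold tst at hi
      have h1 := left_ne_zero_of_mul hi
      have h2 := left_ne_zero_of_mul (right_ne_zero_of_mul hi)
      have h3 := right_ne_zero_of_mul (right_ne_zero_of_mul hi)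
      set y := x / capPow 2 (i + 1) (2 * x) with hy
      have e1 : x = queryN (2 * x) i y := by
        by_contra hcon
        exact h1 (by unfold eq01; rw [if_neg hcon])
      have e2 : 0 < y := by
        by_contra hcon
        exact h2 (by unfold lt01; rw [if_neg hcon])
      have e3 : letN (F y) i = 1 + b.toNat := by
        by_contra hcon
        exact h3 (by unfold eq01; rw [if_neg hcon])
      obtain ⟨w, hw⟩ := exists_num e2
      have hxp : 0 < x := num_pos u
      have hB : 2 ^ (i + 1) ≤ 2 * x := by
        by_contra hcon
        have h4 : capPow 2 (i + 1) (2 * x) = 2 * x + 1 := by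
          rw [capPow, min_eq_right (by omega)]
        have h5 : y = 0 := by
          rw [hy, h4]
          exact Nat.div_eq_of_lt (by omega)
        omega
      refine ⟨i, w, ?_, ?_⟩
      · apply Pool.Agent.Helper78.Avg.num_injective
        rw [← queryN_num hB w, hw, ← e1]
      · rw [← hw, h] at e3
        exact (letN_word _ _ _).1 e3

end Pool.Agent.Helper31.TMS
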