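import Pool.Agent.Helper31.TMS.Final
import Pool.Agent.Helper31.TMS.WTH
import Pool.Agent.Helper20.TMS.Sim

/-!
# Sustained multitape computations
-/

namespace Pool.Agent.Helper31.TMS

open Pool.Agent.Helper65.LinSpace Pool.Agent.Helper28.Ram
open Pool.Agent.Helper20.MH (MultiHead)
open Pool.Agent.Helper81.Sus2 (Decomp)
open Pool.Agent.Helper81.Gen4 (Q)

theorem sustained_multi (c : ℕ) (hc : 0 < c) :
    (∀ (D K : ℕ), 0 < D → 0 < K → ∀ (A : MultiHead D K) (E : Decomp) (L : Set (List Bool)) (C : ℝ),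
      (∀ w, Q (c * w.length) (fun v => ∃ t, A.AcceptsAt w v t) → w ∈ L) →
      (∀ w ∈ L, Q (c * w.length) (MHS.Within A E c C w)) → DLINSPACE L) ∧
    ∃ L : Set (List Bool), DLINSPACE L ∧
      (∀ (D K : ℕ), 0 < D → 0 < K → ∀ (A : MultiHead D K) (E : Decomp) (C : ℝ), ∃ c' : ℝ,
        ∀ (n : ℕ) (α : List Bool), ∀ M, M = L ∨ M = Lᶜ →
        ({w : List Bool | w.length = n ∧
          (Q (c * n) (fun v => ∃ t, A.AcceptsAt w (α ++ v) t) → w ∈ M) ∧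
          (w ∈ M → Q (c * n) fun v => MHS.Within A E c C w (α ++ v))}.ncard : ℝ) ≤
          2 ^ n / 2 + c' * ((α.length : ℝ) + 1) * 2 ^ (((n : ℝ) + α.length / c) / 2)) ∧
      ∀ (k : ℕ), 0 < k → ∀ (M : TM k) (code : M.Sym → List Bool), Function.Injective code →
        code M.blank = [] → ∀ (E : Decomp) (C : ℝ), ∃ c' : ℝ, ∀ n : ℕ, ∀ N, N = L ∨ N = Lᶜ →
        ({w : List Bool | w.length = n ∧ ((∃ t, AcceptsAt M w t) → w ∈ N) ∧
          (w ∈ N → Within M code E c C w)}.ncard : ℝ) ≤ 2 ^ n / 2 + c' * 2 ^ ((n : ℝ) / 2) := by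
  refine ⟨fun D K hD hK A E L C h1 h2 => MHS.mhs_qlin c hD hK A E L C h1 h2, ?_⟩
  obtain ⟨L, h1, h2, h3⟩ := MHS.mhs_two c hc
  exact ⟨L, h1, h2, fun k hk M code hcode hb E C => tms_of Pool.Agent.Helper20.TMS.sim
    (wth Pool.Agent.Helper20.TMS.sim) h3 hk M code hcode hb E C⟩

end Pool.Agent.Helper31.TMS
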