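import Pool.Agent.Helper31.TMS.Lin
import Pool.Agent.Helper31.SusD.Grd

/-!
# Functions which are defined by finitely many patterns with a number
-/

namespace Pool.Agent.Helper31.TMS

open Pool.Agent.Helper65.LinSpace Pool.Agent.Helper78.Mpc Finset
open Pool.Agent.Helper31.SusD (lst)

/-- The least `p ≤ x` with `c p = x`, or `x + 1`. -/
def fp (c : ℕ → ℕ) (x : ℕ) : ℕ := lst (x + 1) fun p => eq01 (c p) x

theorem ls_fp {c : ℕ → ℕ} (hc : LS c) : LS (fp c) := by
  unfold fp
  refine Pool.Agent.Helper31.SusD.LS.lst (N := fun x => x + 1) (p := fun x p => eq01 (c p) x)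
    (by fun_prop) ?_ fun a m => ?_
  · have : LS (fun z : ℕ × ℕ => c z.2) := LS.comp (g := c) hc (by fun_prop)
    fun_prop
  · unfold eq01
    split_ifs <;> norm_num

/-- The value of the first pattern which fits. -/
def sel {τ : Type} (c r : τ → ℕ → ℕ) : List τ → ℕ → ℕ
  | [], _ => 1
  | t :: l, x => ifz (lt01 (fp (c t) x) (x + 1)) (sel c r l x) (r t (fp (c t) x))

theorem ls_sel {τ : Type} {c r : τ → ℕ → ℕ} (hc : ∀ t, LS (c t)) (hr : ∀ t, LS (r t))
    (l : List τ) : LS (sel c r l) := by
  induction l with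
  | nil => exact LS.const 1
  | cons t l ih =>
    have h1 := ls_fp (hc t)
    have h2 : LS (fun x => r t (fp (c t) x)) := LS.comp (g := r t) (hr t) h1
    show LS (fun x => ifz (lt01 (fp (c t) x) (x + 1)) (sel c r l x) (r t (fp (c t) x)))
    fun_prop

theorem sel_eq {τ : Type} {c r : τ → ℕ → ℕ} (h : ∀ t t' p p', c t p = c t' p' → t = t' ∧ p = p')
    {t : τ} {p : ℕ} (hp : p ≤ c t p) {l : List τ} (hl : t ∈ l) : sel c r l (c t p) = r t p := by
  induction l with
  | nil => simp at hl
  | cons t' l ih =>
    show ifz (lt01 (fp (c t') (c t p)) (c t p + 1)) (sel c r l (c t p))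
      (r t' (fp (c t') (c t p))) = r t p
    by_cases hlt : fp (c t') (c t p) < c t p + 1
    · have h1 := Pool.Agent.Helper31.SusD.lst_ne (p := fun q => eq01 (c t' q) (c t p)) hlt
      have h2 : c t' (fp (c t') (c t p)) = c t p := by
        by_contra hcon
        apply h1
        show eq01 (c t' (fp (c t') (c t p))) (c t p) = 0
        unfold eq01
        rw [if_neg hcon]
      obtain ⟨h3, h4⟩ := h _ _ _ _ h2
      have h5 : lt01 (fp (c t') (c t p)) (c t p + 1) = 1 := by
        unfold lt01
        rw [if_pos hlt]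
      rw [h5, ifz_ne one_ne_zero, h4, h3]
    · have h5 : lt01 (fp (c t') (c t p)) (c t p + 1) = 0 := by
        unfold lt01
        rw [if_neg hlt]
      rw [h5, ifz_zero]
      apply ih
      rcases List.mem_cons.1 hl with rfl | h6
      · exfalso
        apply hlt
        have h7 := (Pool.Agent.Helper31.SusD.lst_spec (N := c t p + 1)
          (p := fun q => eq01 (c t q) (c t p)) (m := p) (by omega)
          (by show eq01 (c t p) (c t p) ≠ 0; simp [eq01])).2
        have h8 : fp (c t) (c t p) ≤ p := h7
        omega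
      · exact h6

theorem sel_pos {τ : Type} {c r : τ → ℕ → ℕ} (h : ∀ t p, 0 < r t p) (l : List τ) (x : ℕ) :
    0 < sel c r l x := by
  induction l with
  | nil => exact Nat.one_pos
  | cons t l ih =>
    show 0 < ifz (lt01 (fp (c t) x) (x + 1)) (sel c r l x) (r t (fp (c t) x))
    unfold ifz
    split_ifs
    · exact ih
    · exact h _ _

/-- A function which is defined by finitely many patterns is computable in linear space. -/
theorem exists_linComp {τ : Type} [Finite τ] (enc out : τ → ℕ → List Bool) (c r : τ → ℕ → ℕ)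
    (hc : ∀ t, LS (c t)) (hr : ∀ t, LS (r t)) (hc' : ∀ t p, c t p = num (enc t p))
    (hr' : ∀ t p, r t p = num (out t p))
    (hinj : ∀ t t' p p', enc t p = enc t' p' → t = t' ∧ p = p')
    (hle : ∀ t p, p ≤ num (enc t p)) :
    ∃ f : List Bool → List Bool, LinComp f ∧ ∀ t p, f (enc t p) = out t p := by
  classical
  haveI := Fintype.ofFinite τ
  have hpos : ∀ x, 0 < sel c r (Finset.univ : Finset τ).toList x := fun x =>
    sel_pos (fun t p => by rw [hr']; exact num_pos _) _ x
  choose g hg using fun x => exists_num (hpos x)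
  refine ⟨fun w => g (num w), linComp_of_ls (ls_sel hc hr _) fun w => (hg _).symm, fun t p => ?_⟩
  apply Pool.Agent.Helper78.Avg.num_injective
  show num (g (num (enc t p))) = _
  rw [hg, ← hc', sel_eq ?_ ?_ ?_, hr']
  · intro t t' p p' h
    rw [hc', hc'] at h
    exact hinj _ _ _ _ (Pool.Agent.Helper78.Avg.num_injective h)
  · rw [hc']
    exact hle _ _
  · simp

end Pool.Agent.Helper31.TMS
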